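import Pool.Agent.Lib.MP_ad4d1c_co_h48.ExMain
import Pool.Agent.Lib.MP_ad4d1c_co_h48.OrdSmall
import Pool.Agent.Lib.MP_ad4d1c_co_h48.OrdLarge
import Pool.Agent.Lib.MP_ad4d1c_co_h48.Ord

set_option autoImplicit false

/-!
# MP_ad4d1c_co, Q1 (Felsner–Trotter 1995): the exact value of `f(n)` and the ordering of the
hypercube, for every `n ≥ 1`
-/

namespace Pool.Agent.Results.MP_ad4d1c_co.ExactAndOrdering

open Finset Pool.Agent.Lib.MP_ad4d1c_co_h48.Ord

/-- `B 1, ..., B s` are pairwise distinct subsets of `[n] = {1, ..., n}` with `B 1 = ∅`, with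
`B (i + 1)` not inside `B i` for `1 ≤ i ≤ s - 1`, and with `B j` not inside `B i ∪ B (i + 1)` for
`1 ≤ i` and `i + 2 ≤ j ≤ s`. -/
def Admissible (n s : ℕ) (B : ℕ → Finset ℕ) : Prop :=
  (∀ i, 1 ≤ i → i ≤ s → B i ⊆ Finset.Icc 1 n) ∧
  (∀ i j, 1 ≤ i → i < j → j ≤ s → B i ≠ B j) ∧
  B 1 = ∅ ∧
  (∀ i, 1 ≤ i → i + 1 ≤ s → ¬ B (i + 1) ⊆ B i) ∧
  (∀ i j, 1 ≤ i → i + 2 ≤ j → j ≤ s → ¬ B j ⊆ B i ∪ B (i + 1))

/-- `A 1, ..., A (2 ^ n)` is an ordering of all subsets of `[n] = {1, ..., n}` (each occurs exactly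
once) with `A 1 = ∅`, in which consecutive sets are comparable and differ in exactly one element,
and in which `A i ⊆ A j` with `i > j` happens only for `i = j + 1`. -/
def FTOrdering (n : ℕ) (A : ℕ → Finset ℕ) : Prop :=
  Set.BijOn A (Set.Icc 1 (2 ^ n)) {X : Finset ℕ | X ⊆ Finset.Icc 1 n} ∧
  A 1 = ∅ ∧
  (∀ i, 1 ≤ i → i < 2 ^ n →
    (A i ⊆ A (i + 1) ∨ A (i + 1) ⊆ A i) ∧ (symmDiff (A i) (A (i + 1))).card = 1) ∧
  (∀ i j, 1 ≤ j → j < i → i ≤ 2 ^ n → A i ⊆ A j → i = j + 1)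

/-- the subset of `{1, ..., n}` of a subset of `Fin n` -/
def up {n : ℕ} (X : Finset (Fin n)) : Finset ℕ :=
  X.map ⟨fun x => x.val + 1, fun a b h => Fin.ext (by simpa using h)⟩

/-- the subset of `Fin n` of a subset of `{1, ..., n}` -/
def dn (n : ℕ) (X : Finset ℕ) : Finset (Fin n) := Finset.univ.filter (fun x => x.val + 1 ∈ X)

theorem mem_dn {n : ℕ} {X : Finset ℕ} {x : Fin n} : x ∈ dn n X ↔ x.val + 1 ∈ X := by simp [dn]

theorem mem_up {n : ℕ} {X : Finset (Fin n)} {y : ℕ} :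
    y ∈ up X ↔ ∃ x ∈ X, x.val + 1 = y := by
  simp [up]

theorem up_sub {n : ℕ} (X : Finset (Fin n)) : up X ⊆ Finset.Icc 1 n := by
  intro y hy
  obtain ⟨x, -, rfl⟩ := mem_up.1 hy
  have := x.isLt
  exact Finset.mem_Icc.2 ⟨by omega, by omega⟩

theorem up_le {n : ℕ} {X Y : Finset (Fin n)} : up X ⊆ up Y ↔ X ⊆ Y := Finset.map_subset_map

theorem up_symmDiff {n : ℕ} (X Y : Finset (Fin n)) :
    symmDiff (up X) (up Y) = up (symmDiff X Y) := by
  rw [up, up, up, Finset.map_eq_image, Finset.map_eq_image, Finset.map_eq_image]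
  exact (Finset.image_symmDiff _ _ (Function.Embedding.injective _)).symm

theorem up_dn {n : ℕ} {X : Finset ℕ} (hX : X ⊆ Finset.Icc 1 n) : up (dn n X) = X := by
  ext y
  rw [mem_up]
  constructor
  · rintro ⟨x, hx, rfl⟩
    exact mem_dn.1 hx
  · intro hy
    have h := Finset.mem_Icc.1 (hX hy)
    refine ⟨⟨y - 1, by omega⟩, mem_dn.2 ?_, ?_⟩
    · have h2 : y - 1 + 1 = y := by omega
      simpa [h2] using hy
    · show y - 1 + 1 = y
      omega

theorem dn_sub {n : ℕ} {X Y : Finset ℕ} (hX : X ⊆ Finset.Icc 1 n) (h : dn n X ⊆ dn n Y) :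
    X ⊆ Y := by
  rw [← up_dn hX]
  intro y hy
  obtain ⟨x, hx, rfl⟩ := mem_up.1 hy
  exact mem_dn.1 (h hx)

theorem upper {n s : ℕ} (hn : 1 ≤ n) {B : ℕ → Finset ℕ} (h : Admissible n s B) :
    s ≤ 2 ^ (n - 1) + (n + 1) / 2 := by
  obtain ⟨h0, h1, -, h2, h3⟩ := h
  refine Pool.Agent.Lib.MP_ad4d1c_co_h51.ft_upper n hn s (fun i => dn n (B (i.val + 1)))
    ?_ ?_ ?_
  · intro i j hij
    simp only at hij
    have hi := i.isLt
    have hj := j.isLt
    have he : B (i.val + 1) = B (j.val + 1) :=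
      Finset.Subset.antisymm (dn_sub (h0 _ (by omega) (by omega)) hij.le)
        (dn_sub (h0 _ (by omega) (by omega)) hij.ge)
    rcases lt_trichotomy i.val j.val with h | h | h
    · exact absurd he (h1 _ _ (by omega) (by omega) (by omega))
    · exact Fin.ext h
    · exact absurd he.symm (h1 _ _ (by omega) (by omega) (by omega))
  · intro i j hij hh
    have hj := j.isLt
    have h4 := dn_sub (h0 (j.val + 1) (by omega) (by omega)) hh
    rw [hij] at h4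
    exact h2 (i.val + 1) (by omega) (by omega) h4
  · intro i k j hk hj hh
    have hj' := j.isLt
    refine h3 (i.val + 1) (j.val + 1) (by omega) (by omega) (by omega) ?_
    refine dn_sub (h0 (j.val + 1) (by omega) (by omega)) (hh.trans ?_)
    intro x hx
    rw [mem_dn, Finset.mem_union]
    rcases Finset.mem_union.1 hx with h | h
    · exact Or.inl (mem_dn.1 h)
    · right
      rw [← hk]
      exact mem_dn.1 h

theorem lower {n : ℕ} (hn : 1 ≤ n) :
    ∃ B, Admissible n (2 ^ (n - 1) + (n + 1) / 2) B := by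
  obtain ⟨B, hinj, h0, h1, h2⟩ := Pool.Agent.Lib.MP_ad4d1c_co_h51.good_mem n
    (Pool.Agent.Lib.MP_ad4d1c_co_h48.Ex.good_all n hn)
  generalize hN : 2 ^ (n - 1) + (n + 1) / 2 = N at *
  have hN1 : 1 ≤ N := by
    have : 0 < 2 ^ (n - 1) := Nat.pos_of_ne_zero (by positivity)
    omega
  refine ⟨fun k => if h : 1 ≤ k ∧ k ≤ N then up (B ⟨k - 1, by omega⟩) else ∅, ?_, ?_, ?_, ?_, ?_⟩
  · intro i hi1 hi2
    simp only
    rw [dif_pos ⟨hi1, hi2⟩]
    exact up_sub _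
  · intro i j hi hij hj hh
    simp only at hh
    rw [dif_pos ⟨hi, by omega⟩, dif_pos ⟨by omega, hj⟩] at hh
    have h3 := hinj (Finset.Subset.antisymm (up_le.1 hh.le) (up_le.1 hh.ge))
    rw [Fin.mk.injEq] at h3
    omega
  · simp only
    rw [dif_pos ⟨le_rfl, hN1⟩, h0 _ rfl]
    simp [up]
  · intro i hi1 hi2 hh
    simp only at hh
    rw [dif_pos ⟨by omega, hi2⟩, dif_pos ⟨hi1, by omega⟩] at hh
    exact h1 ⟨i - 1, by omega⟩ ⟨i + 1 - 1, by omega⟩ (by simp only; omega) (up_le.1 hh)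
  · intro i j hi hij hj hh
    simp only at hh
    rw [dif_pos ⟨by omega, hj⟩, dif_pos ⟨hi, by omega⟩, dif_pos ⟨by omega, by omega⟩] at hh
    refine h2 ⟨i - 1, by omega⟩ ⟨i + 1 - 1, by omega⟩ ⟨j - 1, by omega⟩ (by simp only; omega)
      (by simp only; omega) (up_le.1 (hh.trans ?_))
    rw [up, up, up, Finset.map_union]

theorem exists_ordering {n : ℕ} (hn : 1 ≤ n) : ∃ A, FTOrdering n A := by
  have hG : Good2 n := by
    rcases Nat.lt_or_ge n 13 with h | h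
    · exact good2_small n hn (by omega)
    · exact good2_large n h
  obtain ⟨A, hb, h0, h1, h2⟩ := ordering n hn hG
  have hN : 1 ≤ 2 ^ n := Nat.one_le_two_pow
  refine ⟨fun k => if h : 1 ≤ k ∧ k ≤ 2 ^ n then up (A ⟨k - 1, by omega⟩) else ∅,
    ⟨?_, ?_, ?_⟩, ?_, ?_, ?_⟩
  · intro i hi
    simp only
    rw [dif_pos ⟨hi.1, hi.2⟩]
    exact up_sub _
  · intro i hi j hj hh
    simp only at hh
    rw [dif_pos ⟨hi.1, hi.2⟩, dif_pos ⟨hj.1, hj.2⟩] at hh
    have h3 := hb.1 (Finset.Subset.antisymm (up_le.1 hh.le) (up_le.1 hh.ge))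
    rw [Fin.mk.injEq] at h3
    have h4 := hi.1
    have h5 := hj.1
    omega
  · intro X hX
    obtain ⟨i, hi⟩ := hb.2 (dn n X)
    have hil := i.isLt
    refine ⟨i.val + 1, ⟨by omega, by omega⟩, ?_⟩
    simp only
    rw [dif_pos ⟨by omega, by omega⟩]
    have h3 : (⟨i.val + 1 - 1, by omega⟩ : Fin (2 ^ n)) = i := Fin.ext (by simp)
    rw [h3, hi]
    exact up_dn hX
  · simp only
    rw [dif_pos ⟨le_rfl, hN⟩, h0 _ rfl]
    simp [up]
  · intro i hi1 hi2
    simp only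
    rw [dif_pos ⟨hi1, by omega⟩, dif_pos ⟨by omega, by omega⟩]
    obtain ⟨h3, h4⟩ := h1 ⟨i - 1, by omega⟩ ⟨i + 1 - 1, by omega⟩ (by simp only; omega)
    refine ⟨?_, ?_⟩
    · rcases h3 with h3 | h3
      · exact Or.inl (up_le.2 h3)
      · exact Or.inr (up_le.2 h3)
    · rw [up_symmDiff, up, Finset.card_map]
      exact h4
  · intro i j hj hij hi hh
    simp only at hh
    rw [dif_pos ⟨by omega, hi⟩, dif_pos ⟨hj, by omega⟩] at hh
    have h3 := h2 ⟨i - 1, by omega⟩ ⟨j - 1, by omega⟩ (up_le.1 hh) (by simp only; omega)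
    simp only at h3
    omega

/-- For every `n ≥ 1` the greatest length of an admissible sequence of subsets of `[n]` is
`2 ^ (n - 1) + ⌊(n + 1) / 2⌋`, and the Felsner–Trotter ordering of all subsets of `[n]` exists. -/
theorem result (n : ℕ) (hn : 1 ≤ n) :
    IsGreatest {s : ℕ | ∃ B : ℕ → Finset ℕ, Admissible n s B} (2 ^ (n - 1) + (n + 1) / 2) ∧
      ∃ A : ℕ → Finset ℕ, FTOrdering n A := by
  refine ⟨⟨lower hn, ?_⟩, exists_ordering hn⟩
  rintro s ⟨B, hB⟩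
  exact upper hn hB

end Pool.Agent.Results.MP_ad4d1c_co.ExactAndOrdering
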